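import Mathlib

/-!
# The permanental Q-polynomial is not a complete graph invariant

There are two non-isomorphic graphs on `8` vertices with the same Q-polynomial
`Q(G; x, l, m) = omega per(x I + l A + m J)`.
-/

open Finset

namespace Pool.Agent.Results.MP_5909b9_co.QNotComplete

/-! ### The definitions -/

/-- The (linear) operator `omega` on `ℚ[x, l, m]` (the variables are `X 0 = x`, `X 1 = l`,
`X 2 = m`) which replaces every monomial `x^a l^b m^r` by `x^a l^b m^r / r!`. -/
noncomputable def omega (p : MvPolynomial (Fin 3) ℚ) : MvPolynomial (Fin 3) ℚ :=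
  ∑ s ∈ p.support, MvPolynomial.monomial s (p.coeff s / (Nat.factorial (s 2) : ℚ))

open Classical in
/-- The matrix `x I + l A + m J`, where `A` is the adjacency matrix of `G`, `I` the identity matrix
and `J` the all-ones matrix. -/
noncomputable def qMatrix {n : ℕ} (G : SimpleGraph (Fin n)) :
    Matrix (Fin n) (Fin n) (MvPolynomial (Fin 3) ℚ) :=
  (MvPolynomial.X 0 : MvPolynomial (Fin 3) ℚ) • (1 : Matrix (Fin n) (Fin n) _) +
    (MvPolynomial.X 1 : MvPolynomial (Fin 3) ℚ) • G.adjMatrix (MvPolynomial (Fin 3) ℚ) +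
    (MvPolynomial.X 2 : MvPolynomial (Fin 3) ℚ) • Matrix.of (fun _ _ => 1)

/-- The Q-polynomial of a graph on `n` vertices: `omega per(x I + l A + m J)`. -/
noncomputable def Q {n : ℕ} (G : SimpleGraph (Fin n)) : MvPolynomial (Fin 3) ℚ :=
  omega (qMatrix G).permanent

/-! ### Expansion of the permanent, in a form that the kernel can evaluate -/

/-- All ways to select an element of a list, together with the remaining list. -/
def selects {α : Type} : List α → List (α × List α)
  | [] => []
  | x :: xs => (x, xs) :: (selects xs).map (fun p => (p.1, x :: p.2))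

/-- Expansion of the permanent of the matrix `m r c` with the rows `r` in the list, and `k`
consecutive columns from `c` on. -/
def perL {R : Type} [Add R] [Mul R] [Zero R] [One R] (m : ℕ → ℕ → R) : ℕ → ℕ → List ℕ → R
  | 0, _, _ => 1
  | k + 1, c, rows => ((selects rows).map (fun p => m p.1 c * perL m k (c + 1) p.2)).sum

lemma selects_ofFn {α : Type} : ∀ (k : ℕ) (r : Fin (k + 1) → α),
    selects (List.ofFn r) = List.ofFn (fun p => (r p, List.ofFn (fun i => r (p.succAbove i))))
  | 0, r => by simp [selects]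
  | k + 1, r => by
      rw [List.ofFn_succ (f := r), selects, selects_ofFn k (fun i => r i.succ), List.map_ofFn,
        List.ofFn_succ (f := fun p => (r p, List.ofFn (fun i => r (p.succAbove i))))]
      simp only [Fin.succAbove_zero]
      congr 2
      funext p
      simp only [Function.comp_apply]
      rw [List.ofFn_succ (f := fun i => r (p.succ.succAbove i))]
      simp

/-- Laplace expansion of the permanent along the first column. -/
lemma permanent_succ {R : Type} [CommSemiring R] {n : ℕ}
    (A : Matrix (Fin (n + 1)) (Fin (n + 1)) R) :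
    A.permanent = ∑ i : Fin (n + 1), A i 0 * (A.submatrix i.succAbove Fin.succ).permanent := by
  rw [Matrix.permanent, Finset.univ_perm_fin_succ, ← Finset.univ_product_univ]
  simp only [Finset.sum_map, Equiv.toEmbedding_apply, Finset.sum_product]
  refine Finset.sum_congr rfl fun i _ => Fin.cases ?_ (fun i => ?_) i
  · simp only [Fin.prod_univ_succ, Matrix.permanent, Finset.mul_sum,
      Equiv.Perm.decomposeFin_symm_apply_zero, Equiv.swap_self,
      Equiv.Perm.decomposeFin_symm_apply_succ, Fin.succAbove_zero, Equiv.coe_refl, id,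
      Matrix.submatrix_apply]
  · rw [← Matrix.permanent_permute_cols i.cycleRange, Matrix.permanent, Finset.mul_sum]
    refine Finset.sum_congr rfl fun σ _ => ?_
    simp only [Fin.prod_univ_succ, Equiv.Perm.decomposeFin_symm_apply_zero,
      Equiv.Perm.decomposeFin_symm_apply_succ, Matrix.submatrix_apply, id,
      Fin.succAbove_cycleRange]

lemma permanent_eq_perL {R : Type} [CommSemiring R] (m : ℕ → ℕ → R) :
    ∀ (k c : ℕ) (r : Fin k → ℕ),
      (Matrix.of (fun i j : Fin k => m (r i) (c + j))).permanent = perL m k c (List.ofFn r)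
  | 0, c, r => by simp [perL, Matrix.permanent]
  | k + 1, c, r => by
      rw [permanent_succ, perL, selects_ofFn, List.map_ofFn, List.sum_ofFn]
      refine Finset.sum_congr rfl fun i _ => ?_
      simp only [Function.comp_apply]
      rw [← permanent_eq_perL m k (c + 1) (fun x => r (i.succAbove x))]
      simp only [Matrix.of_apply, Fin.val_zero, add_zero]
      congr 2
      ext a b
      simp only [Matrix.submatrix_apply, Matrix.of_apply, Fin.val_succ]
      congr 1
      ring

/-! ### Recovering the counts from one evaluation -/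

lemma ofDigits_map_range (B : ℕ) (f : ℕ → ℕ) (n : ℕ) :
    Nat.ofDigits B ((List.range n).map f) = ∑ i ∈ Finset.range n, f i * B ^ i := by
  induction n with
  | zero => simp
  | succ n ih =>
    rw [List.range_succ, List.map_append, Nat.ofDigits_append, ih, Finset.sum_range_succ]
    simp [mul_comm]

/-- Two functions on a finite type with values less than `N` have the same value distribution
if the sums of `B ^ f` agree and `B` is larger than the cardinality of the type. -/
lemma count_eq {ι : Type} [Fintype ι] (B N : ℕ) (hB : 1 < B) (hcard : Fintype.card ι < B)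
    (f g : ι → ℕ) (hf : ∀ i, f i < N) (hg : ∀ i, g i < N)
    (h : ∑ i, B ^ f i = ∑ i, B ^ g i) (k : ℕ) (hk : k < N) :
    #{i | f i = k} = #{i | g i = k} := by
  have key : ∀ (u : ι → ℕ), (∀ i, u i < N) →
      ∑ i, B ^ u i = Nat.ofDigits B ((List.range N).map (fun k => #{i | u i = k})) := by
    intro u hu
    rw [ofDigits_map_range,
      ← Finset.sum_fiberwise_of_maps_to (s := Finset.univ) (t := Finset.range N) (g := u)
      (fun i _ => Finset.mem_range.2 (hu i))]
    refine Finset.sum_congr rfl fun j _ => ?_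
    rw [Finset.sum_congr rfl (fun i hi => by rw [(Finset.mem_filter.1 hi).2]), Finset.sum_const,
      smul_eq_mul]
  rw [key f hf, key g hg] at h
  have hlt : ∀ (u : ι → ℕ), ∀ l ∈ (List.range N).map (fun k => #{i | u i = k}), l < B := by
    intro u l hl
    simp only [List.mem_map, List.mem_range] at hl
    obtain ⟨a, -, rfl⟩ := hl
    exact lt_of_le_of_lt (Finset.card_le_univ _) hcard
  have h2 := Nat.ofDigits_inj_of_len_eq hB (by simp) (hlt f) (hlt g) h
  have h3 := List.map_inj_left.1 h2 k (List.mem_range.2 hk)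
  exact h3

lemma sum_comp_eq {ι R : Type} [Fintype ι] [CommSemiring R] (B N : ℕ) (hB : 1 < B)
    (hcard : Fintype.card ι < B) (f g : ι → ℕ) (hf : ∀ i, f i < N) (hg : ∀ i, g i < N)
    (h : ∑ i, B ^ f i = ∑ i, B ^ g i) (φ : ℕ → R) : ∑ i, φ (f i) = ∑ i, φ (g i) := by
  have key : ∀ (u : ι → ℕ), (∀ i, u i < N) →
      ∑ i, φ (u i) = ∑ k ∈ Finset.range N, #{i | u i = k} • φ k := by
    intro u hu
    rw [← Finset.sum_fiberwise_of_maps_to (s := Finset.univ) (t := Finset.range N) (g := u)
      (fun i _ => Finset.mem_range.2 (hu i))]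
    refine Finset.sum_congr rfl fun j _ => ?_
    rw [Finset.sum_congr rfl (fun i hi => by rw [(Finset.mem_filter.1 hi).2]), Finset.sum_const]
  rw [key f hf, key g hg]
  refine Finset.sum_congr rfl fun k hk => ?_
  rw [count_eq B N hB hcard f g hf hg h k (Finset.mem_range.1 hk)]

/-! ### Three-valued symmetric matrices -/

section Three

variable {R : Type} [CommSemiring R]

/-- The entry `a` on the diagonal, `b` where `adj` holds and `c` elsewhere. -/
def ent (adj : ℕ → ℕ → Bool) (a b c : R) (i j : ℕ) : R :=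
  if i = j then a else if adj i j then b else c

/-- Number of fixed points of `σ`. -/
def nFix (σ : Equiv.Perm (Fin 8)) : ℕ := #{i | (σ i : ℕ) = (i : ℕ)}

/-- Number of `i` such that `i` and `σ i` are adjacent (and different). -/
def nAdj (adj : ℕ → ℕ → Bool) (σ : Equiv.Perm (Fin 8)) : ℕ :=
  #{i | ¬ (σ i : ℕ) = (i : ℕ) ∧ adj (σ i) i = true}

lemma nFix_add_nAdj (adj : ℕ → ℕ → Bool) (σ : Equiv.Perm (Fin 8)) :
    nFix σ + nAdj adj σ ≤ 8 := by
  unfold nFix nAdj
  rw [← Finset.card_union_of_disjoint]
  · exact le_trans (Finset.card_le_univ _) (by simp)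
  · rw [Finset.disjoint_filter]
    intro i _ h h'
    exact h'.1 h

lemma prod_ent (adj : ℕ → ℕ → Bool) (a b c : R) (σ : Equiv.Perm (Fin 8)) :
    ∏ i : Fin 8, ent adj a b c (σ i) i =
      a ^ nFix σ * b ^ nAdj adj σ * c ^ (8 - nFix σ - nAdj adj σ) := by
  unfold ent
  rw [Finset.prod_ite, Finset.prod_ite, Finset.prod_const, Finset.prod_const, Finset.prod_const,
    Finset.filter_filter, Finset.filter_filter, mul_assoc]
  congr 3
  unfold nFix nAdj
  have h1 := Finset.card_filter_add_card_filter_not (s := (Finset.univ : Finset (Fin 8)))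
    (fun i => (σ i : ℕ) = (i : ℕ))
  have h2 := Finset.card_filter_add_card_filter_not
    (s := Finset.univ.filter (fun i : Fin 8 => ¬ (σ i : ℕ) = (i : ℕ)))
    (fun i => adj (σ i) i = true)
  rw [Finset.filter_filter, Finset.filter_filter] at h2
  rw [Finset.card_univ, Fintype.card_fin] at h1
  omega

/-- If the permanents agree for one suitable choice of natural numbers, they agree always. -/
lemma permanent_congr (adj adj' : ℕ → ℕ → Bool)
    (h : perL (ent adj ((2 ^ 16) ^ 9) (2 ^ 16) 1) 8 0 (List.ofFn (fun i : Fin 8 => (i : ℕ))) =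
      perL (ent adj' ((2 ^ 16) ^ 9) (2 ^ 16) 1) 8 0 (List.ofFn (fun i : Fin 8 => (i : ℕ))))
    (a b c : R) :
    (Matrix.of (fun i j : Fin 8 => ent adj a b c i j)).permanent =
      (Matrix.of (fun i j : Fin 8 => ent adj' a b c i j)).permanent := by
  have e1 := permanent_eq_perL (ent adj ((2 ^ 16) ^ 9) (2 ^ 16) 1) 8 0 (fun i : Fin 8 => (i : ℕ))
  have e2 := permanent_eq_perL (ent adj' ((2 ^ 16) ^ 9) (2 ^ 16) 1) 8 0 (fun i : Fin 8 => (i : ℕ))
  rw [h, ← e2] at e1
  simp only [zero_add, Matrix.permanent, Matrix.of_apply, prod_ent, one_pow, mul_one,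
    ← pow_mul, ← pow_add] at e1 ⊢
  have hlt : ∀ (adj : ℕ → ℕ → Bool) (σ : Equiv.Perm (Fin 8)),
      9 * nFix σ + nAdj adj σ < 81 := by
    intro adj σ
    have := nFix_add_nAdj adj σ
    omega
  have := sum_comp_eq (2 ^ 16) 81 (by norm_num)
    (by rw [Fintype.card_perm, Fintype.card_fin]; decide)
    (fun σ => 9 * nFix σ + nAdj adj σ) (fun σ => 9 * nFix σ + nAdj adj' σ)
    (hlt adj) (hlt adj') (by
      simp only [← pow_mul] at e1 ⊢
      convert e1 using 3 <;> ring)
    (fun k => a ^ (k / 9) * b ^ (k % 9) * c ^ (8 - k / 9 - k % 9))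
  have hdiv : ∀ (adj : ℕ → ℕ → Bool) (σ : Equiv.Perm (Fin 8)),
      (9 * nFix σ + nAdj adj σ) / 9 = nFix σ ∧ (9 * nFix σ + nAdj adj σ) % 9 = nAdj adj σ := by
    intro adj σ
    have := nFix_add_nAdj adj σ
    omega
  simpa only [hdiv] using this

end Three

/-! ### The two graphs -/

/-- The neighbourhoods, as bit masks, of the first graph. -/
def rowsG : List ℕ := [242, 73, 56, 22, 77, 197, 51, 33]

/-- The adjacency of the first graph. -/
def adjG (i j : ℕ) : Bool := (rowsG.getD i 0).testBit j

/-- The adjacency of the complement. -/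
def adjH (i j : ℕ) : Bool := !(i == j) && !((rowsG.getD i 0).testBit j)

lemma perL_eq :
    perL (ent adjG ((2 ^ 16) ^ 9) (2 ^ 16) 1) 8 0 (List.ofFn (fun i : Fin 8 => (i : ℕ))) =
      perL (ent adjH ((2 ^ 16) ^ 9) (2 ^ 16) 1) 8 0 (List.ofFn (fun i : Fin 8 => (i : ℕ))) := by
  decide +kernel

/-- The first graph. -/
def graphG : SimpleGraph (Fin 8) where
  Adj i j := adjG i j = true
  symm := ⟨by decide⟩
  loopless := ⟨by decide⟩

/-- The second graph (the complement of the first). -/
def graphH : SimpleGraph (Fin 8) where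
  Adj i j := adjH i j = true
  symm := ⟨by decide⟩
  loopless := ⟨by decide⟩

lemma qMatrix_eq (G : SimpleGraph (Fin 8)) (adj : ℕ → ℕ → Bool)
    (h : ∀ i j : Fin 8, G.Adj i j ↔ adj i j = true) :
    qMatrix G = Matrix.of (fun i j : Fin 8 => ent adj
      (MvPolynomial.X 0 + MvPolynomial.X 2 : MvPolynomial (Fin 3) ℚ)
      (MvPolynomial.X 1 + MvPolynomial.X 2) (MvPolynomial.X 2) i j) := by
  ext1 i j
  simp only [qMatrix, Matrix.add_apply, Matrix.smul_apply, smul_eq_mul, Matrix.of_apply, ent,
    SimpleGraph.adjMatrix_apply]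
  by_cases hij : i = j
  · subst hij
    simp
  · have hij' : ¬ (i : ℕ) = (j : ℕ) := fun h' => hij (Fin.ext h')
    rw [Matrix.one_apply_ne hij, if_neg hij']
    by_cases ha : G.Adj i j
    · rw [if_pos ha, if_pos ((h i j).1 ha)]
      ring
    · rw [if_neg ha, if_neg (fun h' => ha ((h i j).2 h'))]
      ring

/-- **The Q-polynomial is not a complete graph invariant**: there are two non-isomorphic graphs
on eight vertices with the same Q-polynomial. -/
theorem result : ∃ G H : SimpleGraph (Fin 8), Q G = Q H ∧ IsEmpty (G ≃g H) := by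
  refine ⟨graphG, graphH, ?_, ⟨fun e => ?_⟩⟩
  · unfold Q
    rw [qMatrix_eq graphG adjG (fun _ _ => Iff.rfl), qMatrix_eq graphH adjH (fun _ _ => Iff.rfl),
      permanent_congr adjG adjH perL_eq]
  · -- every vertex of the first graph is in a triangle, but not every vertex of the second
    have h1 : ∀ v : Fin 8, ∃ a b : Fin 8,
        adjG v a = true ∧ adjG v b = true ∧ adjG a b = true := by decide
    have h2 : ∃ v : Fin 8, ∀ a b : Fin 8,
        ¬ (adjH v a = true ∧ adjH v b = true ∧ adjH a b = true) := by decide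
    obtain ⟨v, hv⟩ := h2
    obtain ⟨a, b, hva, hvb, hab⟩ := h1 (e.symm v)
    refine hv (e a) (e b) ⟨?_, ?_, ?_⟩
    · have : graphH.Adj (e (e.symm v)) (e a) := e.map_adj_iff.2 hva
      rwa [e.apply_symm_apply] at this
    · have : graphH.Adj (e (e.symm v)) (e b) := e.map_adj_iff.2 hvb
      rwa [e.apply_symm_apply] at this
    · exact e.map_adj_iff.2 hab

end Pool.Agent.Results.MP_5909b9_co.QNotComplete
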